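import Mathlib

namespace Pool.Agent.H.MP_8e541a_co

open SimpleGraph Finset

variable {V : Type} [Fintype V]

noncomputable def cc (K : SimpleGraph V) : ℕ := Nat.card K.ConnectedComponent

omit [Fintype V] in
theorem reach_sup (K : SimpleGraph V) (u v : V) {x y : V} (h : (K ⊔ edge u v).Reachable x y) :
    K.Reachable x y ∨ (K.Reachable x u ∧ K.Reachable v y) ∨ (K.Reachable x v ∧ K.Reachable u y) := by
  rw [reachable_iff_reflTransGen] at h
  induction h with
  | refl => exact Or.inl (Reachable.refl _)
  | @tail a b _ hab ih =>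
    rcases hab with hab | hab
    · rcases ih with h | h | h
      · exact Or.inl (h.trans hab.reachable)
      · exact Or.inr (Or.inl ⟨h.1, h.2.trans hab.reachable⟩)
      · exact Or.inr (Or.inr ⟨h.1, h.2.trans hab.reachable⟩)
    · rcases ((edge_adj u v a b).1 hab).1 with ⟨rfl, rfl⟩ | ⟨rfl, rfl⟩
      · rcases ih with h | h | h
        · exact Or.inr (Or.inl ⟨h, Reachable.refl _⟩)
        · exact Or.inr (Or.inl ⟨h.1, Reachable.refl _⟩)
        · exact Or.inl h.1
      · rcases ih with h | h | h
        · exact Or.inr (Or.inr ⟨h, Reachable.refl _⟩)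
        · exact Or.inl h.1
        · exact Or.inr (Or.inr ⟨h.1, Reachable.refl _⟩)

omit [Fintype V] in
theorem cc_same (K : SimpleGraph V) {u v : V} (h : K.Reachable u v) : cc (K ⊔ edge u v) = cc K := by
  have : (K ⊔ edge u v).Reachable = K.Reachable := by
    funext x y
    refine propext ⟨fun hr => ?_, fun hr => hr.mono le_sup_left⟩
    rcases reach_sup K u v hr with h' | h' | h'
    · exact h'
    · exact h'.1.trans (h.trans h'.2)
    · exact h'.1.trans (h.symm.trans h'.2)
  exact congrArg (fun r => Nat.card (Quot r)) this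

theorem cc_le (K : SimpleGraph V) (u v : V) : cc K ≤ cc (K ⊔ edge u v) + 1 := by
  classical
  let m := ConnectedComponent.map (Hom.ofLE (le_sup_left : K ≤ K ⊔ edge u v))
  have := Nat.card_le_card_of_injective
    (fun c : K.ConnectedComponent => if c = K.connectedComponentMk u then none else some (m c)) (by
      intro c d h
      induction c using ConnectedComponent.ind with | h x => ?_
      induction d using ConnectedComponent.ind with | h y => ?_
      by_cases hx : K.connectedComponentMk x = K.connectedComponentMk u <;>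
        by_cases hy : K.connectedComponentMk y = K.connectedComponentMk u <;>
        simp only [hx, hy, if_true, if_false, reduceCtorEq, Option.some.injEq] at h ⊢
      have hr : (K ⊔ edge u v).Reachable x y := ConnectedComponent.eq.1 h
      rcases reach_sup K u v hr with h' | h' | h'
      · exact ConnectedComponent.eq.2 h'
      · exact absurd (ConnectedComponent.eq.2 h'.1) hx
      · exact absurd (ConnectedComponent.eq.2 h'.2.symm) hy)
  rwa [Finite.card_option] at this

theorem cc_succ (K : SimpleGraph V) {u v : V} (h : ¬ K.Reachable u v) :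
    cc K = cc (K ⊔ edge u v) + 1 := by
  classical
  refine le_antisymm (cc_le K u v) ?_
  have hne : u ≠ v := fun e => h (e ▸ Reachable.refl _)
  have := Fintype.ofFinite K.ConnectedComponent
  have := Fintype.ofFinite (K ⊔ edge u v).ConnectedComponent
  unfold cc
  rw [Nat.card_eq_fintype_card, Nat.card_eq_fintype_card]
  refine Fintype.card_lt_of_surjective_not_injective _
    (ConnectedComponent.surjective_map_ofLE (le_sup_left : K ≤ K ⊔ edge u v)) fun hi => h ?_
  refine ConnectedComponent.eq.1 (hi ?_)
  exact ConnectedComponent.eq.2 (Adj.reachable (Or.inr ((edge_adj u v u v).2 ⟨Or.inl ⟨rfl, rfl⟩, hne⟩)))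

theorem cc_bot : Fintype.card V ≤ cc (⊥ : SimpleGraph V) := by
  rw [← Nat.card_eq_fintype_card]
  exact Nat.card_le_card_of_injective (⊥ : SimpleGraph V).connectedComponentMk fun x y h =>
    reachable_bot.1 (ConnectedComponent.eq.1 h)

theorem cc_card (K : SimpleGraph V) : cc K ≤ Fintype.card V := by
  rw [← Nat.card_eq_fintype_card]
  exact Nat.card_le_card_of_surjective K.connectedComponentMk Quot.mk_surjective

theorem cc_pos (K : SimpleGraph V) (s : V) : 0 < cc K := by
  have : Nonempty K.ConnectedComponent := ⟨K.connectedComponentMk s⟩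
  exact Nat.card_pos

variable {E : Type} [DecidableEq V] [DecidableEq E] (ends : E → Sym2 V) (s : V)

def HG (A : Finset E) (W : Finset V) : SimpleGraph V :=
  fromEdgeSet (ends '' (A : Set E) ∪ (fun w => s(s, w)) '' (W : Set V))

omit [Fintype V] [DecidableEq V] in
theorem H_e (A : Finset E) (W : Finset V) {e : E} {u v : V} (h : ends e = s(u, v)) :
    HG ends s (insert e A) W = HG ends s A W ⊔ edge u v := by
  unfold HG edge
  rw [← fromEdgeSet_union, coe_insert, Set.image_insert_eq, h, Set.union_singleton, Set.insert_union]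

omit [Fintype V] [DecidableEq E] in
theorem H_w (A : Finset E) (W : Finset V) (t : V) :
    HG ends s A (insert t W) = HG ends s A W ⊔ edge s t := by
  unfold HG edge
  rw [← fromEdgeSet_union, coe_insert, Set.image_insert_eq, Set.union_singleton, Set.union_insert]

theorem bound (A : Finset E) (W : Finset V) :
    Fintype.card V ≤ A.card + W.card + cc (HG ends s A W) := by
  induction A using Finset.induction_on with
  | empty =>
    induction W using Finset.induction_on with
    | empty => simpa [HG] using cc_bot
    | insert t W ht ih =>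
      have := cc_le (HG ends s ∅ W) s t
      rw [H_w, card_insert_of_notMem ht]
      omega
  | insert e A he ih =>
    obtain ⟨⟨u, v⟩, h⟩ := Quot.exists_rep (ends e)
    have := cc_le (HG ends s A W) u v
    rw [H_e ends s A W h.symm, card_insert_of_notMem he]
    omega

def p (W : Finset V) (v : V) : V := if v ∈ W then s else v

def Lp (W : Finset V) (e : E) : Prop := ((ends e).map (p s W)).IsDiag

omit [Fintype V] [DecidableEq E] in
theorem reach_p (A : Finset E) (W : Finset V) (v : V) : (HG ends s A W).Reachable (p s W v) v := by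
  unfold p
  split_ifs with h
  · by_cases e : s = v
    · rw [e]
    · exact Adj.reachable ((fromEdgeSet_adj _).2 ⟨Or.inr ⟨v, h, rfl⟩, e⟩)
  · rfl

omit [Fintype V] [DecidableEq E] in
theorem Lp_mono {W : Finset V} (t : V) {e : E} (h : Lp ends s W e) : Lp ends s (insert t W) e := by
  obtain ⟨⟨u, v⟩, h'⟩ := Quot.exists_rep (ends e)
  have h'' : ends e = s(u, v) := h'.symm
  unfold Lp at *
  rw [h'', Sym2.map_mk, Sym2.mk_isDiag_iff] at h ⊢
  unfold p at *
  grind

variable {R : Type} [CommRing R] (a b : R)

noncomputable def F (W : Finset V) (S : Finset E) : R :=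
  ∑ A ∈ S.powerset, a ^ (cc (HG ends s A W) - 1) *
    b ^ (A.card + W.card + cc (HG ends s A W) - Fintype.card V)

theorem F_loop (W : Finset V) (S : Finset E) {e : E} (he : e ∉ S) (h : Lp ends s W e) :
    F ends s a b W (insert e S) = (1 + b) * F ends s a b W S := by
  obtain ⟨⟨u, v⟩, h'⟩ := Quot.exists_rep (ends e)
  have h'' : ends e = s(u, v) := h'.symm
  unfold Lp at h
  rw [h'', Sym2.map_mk, Sym2.mk_isDiag_iff] at h
  unfold F
  rw [sum_powerset_insert he, add_mul, one_mul, mul_sum]
  congr 1
  refine sum_congr rfl fun A hA => ?_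
  have hr : (HG ends s A W).Reachable u v :=
    (reach_p ends s A W u).symm.trans (h ▸ reach_p ends s A W v)
  rw [H_e ends s A W h'', cc_same _ hr, card_insert_of_notMem fun h => he (mem_powerset.1 hA h)]
  have := bound ends s A W
  rw [show A.card + 1 + W.card + cc (HG ends s A W) - Fintype.card V =
    (A.card + W.card + cc (HG ends s A W) - Fintype.card V) + 1 by omega]
  ring

theorem F_edge (W : Finset V) (S : Finset E) {e : E} (he : e ∉ S) {t : V} (ht : t ∉ W)
    (h : ends e = s(s, t)) :
    F ends s a b W (insert e S) = F ends s a b W S + F ends s a b (insert t W) S := by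
  unfold F
  rw [sum_powerset_insert he]
  congr 1
  refine sum_congr rfl fun A hA => ?_
  rw [H_e ends s A W h, H_w, card_insert_of_notMem fun h => he (mem_powerset.1 hA h),
    card_insert_of_notMem ht]
  congr 3
  omega

omit [DecidableEq E] in
theorem F_iso (S : Finset E) (hS : ∀ e ∈ S, s ∉ ends e) {t : V} (ht : t ≠ s) :
    F ends s a b ∅ S = a * F ends s a b {t} S := by
  unfold F
  rw [mul_sum]
  refine sum_congr rfl fun A hA => ?_
  have hr : ¬ (HG ends s A ∅).Reachable s t := by
    rintro ⟨w⟩
    cases w with
    | nil => exact ht rfl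
    | cons h _ =>
      rcases ((fromEdgeSet_adj _).1 h).1 with ⟨e, he, h'⟩ | ⟨_, h', _⟩
      · exact hS e (mem_powerset.1 hA he) (by rw [h']; simp)
      · simp at h'
  have e1 := cc_succ _ hr
  rw [← H_w, insert_empty_eq] at e1
  have := cc_pos (HG ends s A {t}) s
  rw [e1, show cc (HG ends s A {t}) + 1 - 1 = (cc (HG ends s A {t}) - 1) + 1 by omega, card_empty,
    card_singleton, show A.card + 0 + (cc (HG ends s A {t}) + 1) = A.card + 1 + cc (HG ends s A {t}) by omega]
  ring

open Classical in
noncomputable def Core [Fintype E] (W : Finset V) : Finset E :=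
  univ.filter fun e => s ∉ ends e ∧ ¬ Lp ends s W e

open Classical in
theorem step [Fintype E] (I : Ideal R) (W : Finset V)
    (hW : ∀ t, t ≠ s → (∃ e, ends e = s(s, t)) → t ∉ W → ∀ S, Core ends s (insert t W) ⊆ S →
      F ends s a b (insert t W) S ∈ I) (D : Finset E) (hD : Disjoint D (Core ends s W)) :
    F ends s a b W (D ∪ Core ends s W) -
      (1 + b) ^ (D.filter (Lp ends s W)).card * F ends s a b W (Core ends s W) ∈ I := by
  induction D using Finset.induction_on with
  | empty => simp
  | insert e D he ih =>
    rw [disjoint_insert_left] at hD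
    have ih := ih hD.2
    have hn : e ∉ D ∪ Core ends s W := by simp [he, hD.1]
    rw [insert_union, filter_insert]
    split_ifs with hl
    · rw [F_loop ends s a b W _ hn hl, card_insert_of_notMem (by simp [he]), pow_succ', mul_assoc,
        ← mul_sub]
      exact I.mul_mem_left _ ih
    · have hs : s ∈ ends e := by
        by_contra h
        exact hD.1 (by simp [Core, h, hl])
      obtain ⟨t, ht⟩ := Sym2.mem_iff_exists.1 hs
      have h1 : p s W s ≠ p s W t := by
        unfold Lp at hl
        rwa [ht, Sym2.map_mk, Sym2.mk_isDiag_iff] at hl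
      have h2 : t ≠ s := fun e => h1 (by rw [e])
      have h3 : t ∉ W := fun h => h1 (by simp [p, h])
      rw [F_edge ends s a b W _ hn h3 ht, add_sub_right_comm]
      refine I.add_mem ih (hW t h2 ⟨e, ht⟩ h3 _ fun x hx => mem_union_right _ ?_)
      simp only [Core, mem_filter, mem_univ, true_and] at hx ⊢
      exact ⟨hx.1, fun h => hx.2 (Lp_mono ends s t h)⟩

open Classical in
theorem main [Fintype E] (I : Ideal R)
    (hI : ∀ W : Finset V, W.Nonempty → (∀ t ∈ W, t ≠ s ∧ ∃ e, ends e = s(s, t)) →
      F ends s a b W (univ.filter fun e => ¬ Lp ends s W e) ∈ I)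
    (t : V) (ht : t ≠ s) (ht' : ∃ e, ends e = s(s, t)) : F ends s a b ∅ univ ∈ I := by
  have fin : ∀ W : Finset V, (∀ t, t ≠ s → (∃ e, ends e = s(s, t)) → t ∉ W →
      ∀ S, Core ends s (insert t W) ⊆ S → F ends s a b (insert t W) S ∈ I) →
      F ends s a b W (Core ends s W) ∈ I → ∀ S, Core ends s W ⊆ S → F ends s a b W S ∈ I := by
    intro W hW h0 S hS
    have := step ends s a b I W hW (S \ Core ends s W) sdiff_disjoint
    rw [sdiff_union_of_subset hS] at this
    exact (I.sub_mem_iff_left (I.mul_mem_left _ h0)).1 this
  have P : ∀ m, ∀ W : Finset V, Fintype.card V - W.card ≤ m → W.Nonempty →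
      (∀ t ∈ W, t ≠ s ∧ ∃ e, ends e = s(s, t)) →
      ∀ S, Core ends s W ⊆ S → F ends s a b W S ∈ I := by
    intro m
    induction m using Nat.strong_induction_on with
    | _ m ih =>
      intro W hm hne hN
      have hW : ∀ t, t ≠ s → (∃ e, ends e = s(s, t)) → t ∉ W →
          ∀ S, Core ends s (insert t W) ⊆ S → F ends s a b (insert t W) S ∈ I := by
        intro t h1 h2 h3
        have c1 := card_le_univ (insert t W)
        have c2 := card_insert_of_notMem h3
        refine ih (m - 1) (by omega) _ (by omega) (insert_nonempty _ _) fun x hx => ?_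
        rcases mem_insert.1 hx with rfl | hx
        · exact ⟨h1, h2⟩
        · exact hN x hx
      refine fin W hW ?_
      have hsub : Core ends s W ⊆ univ.filter fun e => ¬ Lp ends s W e := fun x hx => by
        simp only [Core, mem_filter, mem_univ, true_and] at hx ⊢
        exact hx.2
      have := step ends s a b I W hW ((univ.filter fun e => ¬ Lp ends s W e) \ Core ends s W)
        sdiff_disjoint
      have e0 : filter (Lp ends s W) ((univ.filter fun e => ¬ Lp ends s W e) \ Core ends s W) = ∅ :=
        filter_eq_empty_iff.2 fun x hx => (mem_filter.1 (mem_sdiff.1 hx).1).2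
      rw [sdiff_union_of_subset hsub, e0, card_empty, pow_zero, one_mul] at this
      simpa using I.sub_mem (hI W hne hN) this
  have P1 : ∀ t, t ≠ s → (∃ e, ends e = s(s, t)) → t ∉ (∅ : Finset V) →
      ∀ S, Core ends s (insert t ∅) ⊆ S → F ends s a b (insert t ∅) S ∈ I := fun t h1 h2 _ =>
    P _ _ le_rfl (insert_nonempty _ _) fun x hx => by
      rw [insert_empty_eq, mem_singleton] at hx
      exact hx ▸ ⟨h1, h2⟩
  refine fin ∅ P1 ?_ _ (subset_univ _)
  rw [F_iso ends s a b _ (fun e he => by
    simp only [Core, mem_filter] at he; exact he.2.1) ht]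
  refine I.mul_mem_left _ (P1 t ht ht' (by simp) _ fun x hx => ?_)
  simp only [Core, mem_filter, mem_univ, true_and] at hx ⊢
  exact ⟨hx.1, fun h => hx.2 (Lp_mono ends s t h)⟩

end Pool.Agent.H.MP_8e541a_co
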